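import Pool.Agent.R409.RH.Cls

/-!
# Limits of the class sums
-/

set_option autoImplicit false

namespace Pool.Agent.R409.RH

open NumberField Filter Topology
open Pool.Agent.R409.RC Pool.Agent.R409.RF Pool.Agent.R409.RG

/-- the inertia groups are normalised by the Frobenius elements -/
theorem frob_normal {K : Type} [Field K] [NumberField K] {P : Nat.Primes → Ideal (𝓞 K)}
    {frob : Nat.Primes → (K ≃ₐ[ℚ] K)} (h : IsFrobenius K P frob) (p : Nat.Primes) :
    ∀ i ∈ inertiaAt K P p, frob p * i * (frob p)⁻¹ ∈ inertiaAt K P p := by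
  obtain ⟨hP, hp, hf⟩ := h p
  have hmem : ∀ z ∈ P p, frob p • z ∈ P p := by
    intro z hz
    have h1 := hf z
    have h2 : z ^ (p : ℕ) ∈ P p := Ideal.pow_mem_of_mem _ hz _ p.2.pos
    have h3 := (P p).add_mem h1 h2
    rwa [sub_add_cancel] at h3
  intro i hi
  intro x
  have h1 : i • ((frob p)⁻¹ • x) - (frob p)⁻¹ • x ∈ P p := hi ((frob p)⁻¹ • x)
  have h2 := hmem _ h1
  rw [smul_sub, smul_inv_smul, ← mul_smul, ← mul_smul] at h2
  exact h2

variable {G : Type} [Group G] [Finite G] {frob : Nat.Primes → G} {I : Nat.Primes → Subgroup G}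

theorem tend_div {V : ℝ → ℂ} {c m Λ : ℂ} {B T₀ : ℝ}
    (h : ∀ T : ℝ, T₀ ≤ T → ‖V T - (c - m * (Real.log T - Λ))‖ ≤ B / T) :
    Tendsto (fun T : ℝ => V T / (Real.log T : ℂ)) atTop (𝓝 (-m)) := by
  have hd : Tendsto (fun T : ℝ => V T - (c - m * (Real.log T - Λ))) atTop (𝓝 0) := by
    refine squeeze_zero_norm' ?_ (tendsto_const_nhds.div_atTop tendsto_id : Tendsto
      (fun T : ℝ => B / T) atTop (𝓝 0))
    filter_upwards [eventually_ge_atTop T₀] with T hT' using h T hT'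
  have hlog : Tendsto (fun T : ℝ => (((Real.log T)⁻¹ : ℝ) : ℂ)) atTop (𝓝 0) := by
    have := (tendsto_inv_atTop_zero.comp Real.tendsto_log_atTop)
    have h2 := (Complex.continuous_ofReal.tendsto 0).comp this
    simpa [Function.comp_def] using h2
  have h2 : Tendsto (fun T : ℝ => (V T - (c - m * (Real.log T - Λ)) +
      (c + m * Λ)) * (((Real.log T)⁻¹ : ℝ) : ℂ) - m) atTop
      (𝓝 ((0 + (c + m * Λ)) * 0 - m)) :=
    ((hd.add_const _).mul hlog).sub_const _
  have h4 : (0 + (c + m * Λ)) * 0 - m = -m := by ring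
  rw [h4] at h2
  refine h2.congr' ?_
  filter_upwards [eventually_gt_atTop (1 : ℝ)] with T hT1
  have hl : (Real.log T : ℂ) ≠ 0 := by exact_mod_cast (Real.log_pos hT1).ne'
  push_cast
  field_simp
  ring

variable {ι : Type} [Fintype ι] {d : ι → ℕ} {ρ : ∀ i, G →* Matrix (Fin (d i)) (Fin (d i)) ℂ}
  {F : ι → ℂ → ℂ}

/-- the class law with the orders of the given continuations -/
theorem class_data [Fintype (ConjClasses G)]
    (hn : ∀ p, ∀ i ∈ I p, frob p * i * (frob p)⁻¹ ∈ I p)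
    (hirr : AreIrreducible ρ) (hF : ∀ i, IsContinuation frob I (ρ i) (F i)) (s₀ : ℂ) :
    ∃ m : ConjClasses G → ℂ,
      (∀ γ θ : ℝ, Real.pi / 2 < γ → 1 - s₀.re < θ → 0 < θ → ∀ C,
        Tendsto (fun T : ℝ => classSum frob I C s₀ γ θ T / (Real.log T : ℂ)) atTop (𝓝 (-m C))) ∧
      (∀ (k : ℕ) (τ : G →* Matrix (Fin k) (Fin k) ℂ) (f : ℂ → ℂ), IsContinuation frob I τ f →
        meromorphicOrderAt f s₀ = (meromorphicOrderAt f s₀).untop₀ ∧
        (((meromorphicOrderAt f s₀).untop₀ : ℤ) : ℂ) = ∑ C, chi τ C * m C) ∧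
      (∀ C, m C = (Nat.card C.carrier : ℂ) / Nat.card G *
          ∑ i, (starRingEnd ℂ) (chi (ρ i) C) * ((meromorphicOrderAt (F i) s₀).untop₀ : ℤ)) ∧
      (∑ i, (((meromorphicOrderAt (F i) s₀).untop₀ : ℤ) : ℝ) ^ 2) =
        Nat.card G * ∑ C, ‖m C‖ ^ 2 / (Nat.card C.carrier : ℝ) := by
  obtain ⟨c, m, hlaw, hval, r, hr, hm⟩ := class_law hn hirr hF s₀
  have hr' : ∀ i, (meromorphicOrderAt (F i) s₀).untop₀ = r i := fun i => by
    rw [hr i]
    rfl
  refine ⟨m, fun γ θ hγ hθ hθ0 C => ?_, fun k τ f hf => ?_, fun C => ?_, ?_⟩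
  · obtain ⟨B, T₀, -, -, hT⟩ := hlaw γ θ hγ hθ hθ0 C
    exact tend_div hT
  · obtain ⟨⟨q, hq, hq'⟩, -⟩ := hval k τ f hf
    rw [hq, ← hq']
    exact ⟨rfl, rfl⟩
  · simp only [hr']
    exact hm C
  · have h1 := parseval hirr hm
    simp only [hr']
    have h2 : ((∑ i, ((r i : ℤ) : ℝ) ^ 2 : ℝ) : ℂ) =
        ((Nat.card G * ∑ C, ‖m C‖ ^ 2 / (Nat.card C.carrier : ℝ) : ℝ) : ℂ) := by
      have e1 : ((∑ i, ((r i : ℤ) : ℝ) ^ 2 : ℝ) : ℂ) = ((∑ i, r i ^ 2 : ℤ) : ℂ) := by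
        push_cast
        rfl
      rw [e1, h1]
      push_cast
      congr 1
      refine Finset.sum_congr rfl fun C _ => ?_
      rw [Complex.mul_conj, Complex.normSq_eq_norm_sq]
      push_cast
      rfl
    exact_mod_cast h2

theorem tend_lin [Fintype (ConjClasses G)] {s₀ : ℂ} {γ θ : ℝ} {m : ConjClasses G → ℂ}
    (h : ∀ C, Tendsto (fun T : ℝ => classSum frob I C s₀ γ θ T / (Real.log T : ℂ)) atTop
      (𝓝 (-m C))) (f : ConjClasses G → ℂ) :
    Tendsto (fun T : ℝ => -(∑ C, f C * classSum frob I C s₀ γ θ T).re / Real.log T) atTop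
      (𝓝 (∑ C, f C * m C).re) := by
  have h1 : Tendsto (fun T : ℝ => ∑ C, f C * (classSum frob I C s₀ γ θ T / (Real.log T : ℂ))) atTop
      (𝓝 (∑ C, f C * -m C)) := tendsto_finsetSum _ fun C _ => (h C).const_mul _
  have h2 := ((Complex.continuous_re.tendsto _).comp h1).neg
  have h3 : -(∑ C, f C * -m C).re = (∑ C, f C * m C).re := by
    rw [← Complex.neg_re, ← Finset.sum_neg_distrib]
    simp
  rw [h3] at h2
  refine h2.congr fun T => ?_
  have h4 : ∑ C, f C * (classSum frob I C s₀ γ θ T / (Real.log T : ℂ)) =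
      (((Real.log T)⁻¹ : ℝ) : ℂ) * ∑ C, f C * classSum frob I C s₀ γ θ T := by
    rw [Finset.mul_sum]
    refine Finset.sum_congr rfl fun C _ => ?_
    push_cast
    rw [div_eq_mul_inv]
    ring
  simp only [Function.comp_apply]
  rw [h4, Complex.re_ofReal_mul]
  ring

theorem tend_quad [Fintype (ConjClasses G)] {s₀ : ℂ} {γ θ : ℝ} {m : ConjClasses G → ℂ}
    (h : ∀ C, Tendsto (fun T : ℝ => classSum frob I C s₀ γ θ T / (Real.log T : ℂ)) atTop
      (𝓝 (-m C))) :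
    Tendsto (fun T : ℝ => Nat.card G * (∑ C, ‖classSum frob I C s₀ γ θ T‖ ^ 2 /
      (Nat.card C.carrier : ℝ)) / Real.log T ^ 2) atTop
      (𝓝 (Nat.card G * ∑ C, ‖m C‖ ^ 2 / (Nat.card C.carrier : ℝ))) := by
  have h1 : Tendsto (fun T : ℝ => Nat.card G * ∑ C,
      ‖classSum frob I C s₀ γ θ T / (Real.log T : ℂ)‖ ^ 2 / (Nat.card C.carrier : ℝ)) atTop
      (𝓝 (Nat.card G * ∑ C, ‖-m C‖ ^ 2 / (Nat.card C.carrier : ℝ))) :=
    (tendsto_finsetSum _ fun C _ => (((h C).norm.pow 2).div_const _)).const_mul _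
  simp only [norm_neg] at h1
  refine h1.congr fun T => ?_
  rw [mul_div_assoc, Finset.sum_div]
  congr 1
  refine Finset.sum_congr rfl fun C _ => ?_
  rw [norm_div, div_pow, Complex.norm_real, Real.norm_eq_abs, sq_abs]
  ring

/-- a threshold between consecutive integers -/
theorem thr_iff {f : ℝ → ℝ} {a : ℝ} {k : ℕ} {z : ℤ} (hf : Tendsto (fun T => f T / Real.log T ^ k)
    atTop (𝓝 (z : ℝ))) {b : ℤ} (ha : a = b + 1 / 2) :
    (∀ T₀ : ℝ, ∃ T : ℝ, T₀ ≤ T ∧ f T ≤ a * Real.log T ^ k) ↔ z ≤ b := by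
  constructor
  · intro h
    by_contra hz
    push Not at hz
    have h1 : a < z := by
      have : (b : ℝ) + 1 ≤ z := by exact_mod_cast hz
      rw [ha]
      linarith
    have h3 := (hf.eventually (lt_mem_nhds h1)).and (eventually_gt_atTop 1)
    obtain ⟨T₁, hT₁⟩ := Filter.eventually_atTop.1 h3
    obtain ⟨T, hT, hT'⟩ := h T₁
    obtain ⟨h4, h5⟩ := hT₁ T hT
    have hl : 0 < Real.log T ^ k := pow_pos (Real.log_pos h5) k
    have := (lt_div_iff₀ hl).1 h4
    linarith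
  · intro h T₀
    have h1 : (z : ℝ) < a := by
      have : (z : ℝ) ≤ b := by exact_mod_cast h
      rw [ha]
      linarith
    obtain ⟨T, hT1, hT2, hT3⟩ := ((hf.eventually (gt_mem_nhds h1)).and
      ((eventually_ge_atTop T₀).and (eventually_gt_atTop 1))).exists
    refine ⟨T, hT2, ?_⟩
    have hl : 0 < Real.log T ^ k := pow_pos (Real.log_pos hT3) k
    have := (div_lt_iff₀ hl).1 hT1
    linarith

end Pool.Agent.R409.RH
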