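import Pool.Agent.H307R2.LU
import Pool.Agent.R409.RH.Lim

/-!
# `ζ(1/2) ≠ 0`, and the trivial character
-/

set_option autoImplicit false

namespace Pool.Agent.R409.RH

open MeasureTheory Filter Topology Set

/-- `ζ(1/2) ≠ 0` -/
theorem zeta_half_ne : riemannZeta (1 / 2 : ℂ) ≠ 0 := by
  have hne : (((1 / 2 : ℝ)) : ℂ) ≠ 1 := by
    intro h
    have : (1 / 2 : ℝ) = 1 := by exact_mod_cast h
    norm_num at this
  have e0 := Pool.Agent.H307R2.zeta_eq (N := 1) le_rfl (s := ((1 / 2 : ℝ) : ℂ)) (by simp) hne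
  have e1 : Pool.Agent.H307R2.TM 1 Pool.Agent.H307R2.Ez ((1 / 2 : ℝ) : ℂ) =
      ((∫ t in Ioi ((1 : ℕ) : ℝ), (-(Int.fract t)) * t ^ (-((1 / 2 : ℝ) + 1)) : ℝ) : ℂ) := by
    unfold Pool.Agent.H307R2.TM
    rw [← integral_complex_ofReal]
    refine MeasureTheory.setIntegral_congr_fun measurableSet_Ioi fun t ht => ?_
    have ht' : (1 : ℝ) < t := by simpa using ht
    have ht0 : 0 ≤ t := by linarith
    simp only [Pool.Agent.H307R2.Ez]
    rw [Complex.ofReal_mul, Complex.ofReal_cpow ht0]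
    push_cast
    rfl
  have e2 : (∫ t in Ioi ((1 : ℕ) : ℝ), (-(Int.fract t)) * t ^ (-((1 / 2 : ℝ) + 1)) : ℝ) ≤ 0 := by
    apply MeasureTheory.setIntegral_nonpos measurableSet_Ioi
    intro t ht
    have ht' : (1 : ℝ) < t := by simpa using ht
    have : 0 ≤ Int.fract t * t ^ (-((1 / 2 : ℝ) + 1)) :=
      mul_nonneg (Int.fract_nonneg t) (Real.rpow_nonneg (by linarith) _)
    linarith
  rw [e1] at e0
  set I := (∫ t in Ioi ((1 : ℕ) : ℝ), (-(Int.fract t)) * t ^ (-((1 / 2 : ℝ) + 1)) : ℝ) with hI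
  have e3 : riemannZeta (1 / 2 : ℂ) = ((1 + 1 / ((1 / 2 : ℝ) - 1) + (1 / 2) * I : ℝ) : ℂ) := by
    have e4 : (((1 / 2 : ℝ)) : ℂ) = (1 / 2 : ℂ) := by push_cast; rfl
    rw [e4] at e0
    rw [e0]
    push_cast
    simp
  rw [e3]
  intro h
  have h2 : (1 + 1 / ((1 / 2 : ℝ) - 1) + (1 / 2) * I : ℝ) = 0 := by exact_mod_cast h
  norm_num at h2
  linarith

theorem zeta_order_half : meromorphicOrderAt riemannZeta (1 / 2 : ℂ) = 0 := by
  have h0 : (1 / 2 : ℂ) ≠ 1 := by norm_num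
  have h1 : AnalyticAt ℂ riemannZeta (1 / 2 : ℂ) := by
    have h2 : DifferentiableOn ℂ riemannZeta {1}ᶜ := fun z hz =>
      (differentiableAt_riemannZeta hz).differentiableWithinAt
    exact h2.analyticAt (isOpen_compl_singleton.mem_nhds h0)
  rw [h1.meromorphicOrderAt_eq, (h1.analyticOrderAt_eq_zero).2 zeta_half_ne]
  rfl

theorem mero_zeta (z : ℂ) : MeromorphicAt riemannZeta z := by
  have h1 := mero_LFunction (1 : DirichletCharacter ℂ 1) z
  rwa [DirichletCharacter.LFunction_modOne_eq] at h1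

variable {G : Type} [Group G] [Finite G] {frob : Nat.Primes → G} {I : Nat.Primes → Subgroup G}

theorem zeta_cont : IsContinuation frob I (1 : G →* Matrix (Fin 1) (Fin 1) ℂ) riemannZeta := by
  refine ⟨mero_zeta, fun s hs => ?_⟩
  unfold LFun
  rw [← riemannZeta_eulerProduct_tprod hs]
  refine tprod_congr fun p => ?_
  have h1 : proj (1 : G →* Matrix (Fin 1) (Fin 1) ℂ) (I p) = 1 := by
    have := Fintype.ofFinite (I p)
    rw [proj_eq]
    simp only [MonoidHom.one_apply, Finset.sum_const, Finset.card_univ]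
    rw [← Nat.card_eq_fintype_card, ← Nat.cast_smul_eq_nsmul ℂ, smul_smul, inv_mul_cancel₀,
      one_smul]
    exact_mod_cast Nat.card_pos.ne'
  rw [h1]
  simp

end Pool.Agent.R409.RH
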