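import Pool.Agent.R409.RH.FS
import Pool.Agent.R409.RH.Half

/-!
# The central point
-/

set_option autoImplicit false

namespace Pool.Agent.R409.RH

open NumberField Filter Topology
open Pool.Agent.R409.RC Pool.Agent.R409.RF Pool.Agent.R409.RG

variable {G : Type} [Group G] [Finite G] {frob : Nat.Primes → G} {I : Nat.Primes → Subgroup G}
  {ι : Type} [Fintype ι] {d : ι → ℕ} {ρ : ∀ i, G →* Matrix (Fin (d i)) (Fin (d i)) ℂ}
  {L : ι → ℂ → ℂ}

/-- the trivial character -/
theorem order_triv [Fintype (ConjClasses G)]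
    (hn : ∀ p, ∀ i ∈ I p, frob p * i * (frob p)⁻¹ ∈ I p)
    (hirr : AreIrreducible ρ) (hL : ∀ i, IsContinuation frob I (ρ i) (L i)) {i : ι}
    (hi : ∀ g, (ρ i g).trace = 1) : ordAt (L i) (1 / 2) = 0 := by
  obtain ⟨m, -, h2, -, -⟩ := class_data hn hirr hL (1 / 2)
  have h3 := (h2 _ _ _ (hL i)).2
  have h4 := (h2 _ _ _ (zeta_cont (frob := frob) (I := I))).2
  rw [zeta_order_half] at h4
  have h5 : ∑ C, chi (ρ i) C * m C = ∑ C, chi (1 : G →* Matrix (Fin 1) (Fin 1) ℂ) C * m C := by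
    refine Finset.sum_congr rfl fun C _ => ?_
    unfold chi
    rw [hi]
    simp
  rw [h5, ← h4] at h3
  unfold ordAt
  exact_mod_cast h3

/-- the trivial character is orthogonal -/
theorem fs_triv {n : ℕ} {τ : G →* Matrix (Fin n) (Fin n) ℂ} (hi : ∀ g, (τ g).trace = 1) :
    fs τ = 1 := by
  have := Fintype.ofFinite G
  have hG : (Nat.card G : ℂ) ≠ 0 := by exact_mod_cast Nat.card_pos.ne'
  unfold fs
  rw [finsum_eq_sum_of_fintype]
  simp only [hi]
  rw [Finset.sum_const, Finset.card_univ, nsmul_eq_mul, mul_one, ← Nat.card_eq_fintype_card,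
    inv_mul_cancel₀ hG]

/-- the class of the identity -/
theorem slope_one [Fintype (ConjClasses G)] {m : ConjClasses G → ℂ} {r : ι → ℤ}
    (hm : ∀ C, m C = (Nat.card C.carrier : ℂ) / Nat.card G *
      ∑ i, (starRingEnd ℂ) (chi (ρ i) C) * r i) :
    (Nat.card G : ℂ) * m (ConjClasses.mk 1) = ∑ i, (d i : ℂ) * r i := by
  have hG : (Nat.card G : ℂ) ≠ 0 := by exact_mod_cast Nat.card_pos.ne'
  have h1 : (Nat.card (ConjClasses.mk (1 : G)).carrier : ℂ) = 1 := by
    have h2 : (ConjClasses.mk (1 : G)).carrier = {1} := by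
      ext g
      rw [ConjClasses.mem_carrier_iff_mk_eq, ConjClasses.mk_eq_mk_iff_isConj, Set.mem_singleton_iff]
      exact isConj_one_left
    rw [h2]
    simp
  rw [hm, h1]
  have h3 : ∀ i, (starRingEnd ℂ) (chi (ρ i) (ConjClasses.mk 1)) = d i := by
    intro i
    rw [← chi_mk, map_one, Matrix.trace_one, Fintype.card_fin]
    simp
  simp only [h3]
  field_simp

end Pool.Agent.R409.RH
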