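import Pool.Agent.R409.RF.Wt
import Pool.Agent.R409.RG.Art

/-!
# The law at an arbitrary point for the Dirichlet L-functions
-/

set_option autoImplicit false

namespace Pool.Agent.R409.RH

open Complex Filter Topology
open Pool.Agent.R409.RC Pool.Agent.R409.RF DirichletCharacter

variable {N : ℕ} [NeZero N]

/-- the Dirichlet L-functions are meromorphic -/
theorem mero_LFunction (χ : DirichletCharacter ℂ N) (z : ℂ) : MeromorphicAt χ.LFunction z := by
  by_cases h : z ≠ 1 ∨ χ ≠ 1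
  · refine AnalyticAt.meromorphicAt ?_
    rcases h with h | h
    · have h1 : DifferentiableOn ℂ χ.LFunction {1}ᶜ := fun s hs =>
        (differentiableAt_LFunction χ s (Or.inl hs)).differentiableWithinAt
      exact h1.analyticAt (isOpen_compl_singleton.mem_nhds h)
    · exact (differentiable_LFunction h).analyticAt z
  · push Not at h
    obtain ⟨rfl, rfl⟩ := h
    have h1 : MeromorphicAt (fun s : ℂ => LFunctionTrivChar₁ N s / (s - 1)) 1 := by
      refine MeromorphicAt.div ?_ ?_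
      · exact ((differentiable_LFunctionTrivChar₁ N).analyticAt 1).meromorphicAt
      · fun_prop
    refine h1.congr ?_
    filter_upwards [self_mem_nhdsWithin] with s hs
    have hs' : s ≠ 1 := hs
    rw [LFunctionTrivChar₁, Function.update_of_ne hs', mul_comm,
      mul_div_assoc, div_self (sub_ne_zero.2 hs'), mul_one]

/-- the prime `p` as a real number -/
noncomputable def qP (p : Nat.Primes) : ℝ := (p : ℕ)

theorem two_le_qP (p : Nat.Primes) : 2 ≤ qP p := by
  have := p.2.two_le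
  unfold qP
  exact_mod_cast this

theorem sum_qP {σ : ℝ} (hσ : 1 < σ) : Summable fun p => qP p ^ (-σ) :=
  Nat.Primes.summable_rpow.2 (by linarith)

theorem xd_dir (χ : DirichletCharacter ℂ N) :
    XD (0 : ℝ) qP (fun (p : Nat.Primes) (_ : Fin 1) => χ (p : ℕ)) where
  two_le := two_le_qP
  sum := fun σ hσ => sum_qP hσ
  norm_le := fun p _ => by
    rw [zero_div, Real.rpow_zero]
    exact norm_le_one χ _

/-- the terms `χ(p^k) p^{-ks₀} κ_γ(k log p / T) / k` -/
noncomputable def dterm (χ : DirichletCharacter ℂ N) (s₀ : ℂ) (γ T : ℝ) (p : Nat.Primes) (k : ℕ) :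
    ℂ :=
  χ (p : ℕ) ^ k * (((p : ℕ) : ℂ) ^ (-s₀)) ^ k / k *
    Pool.Agent.W187.S2.kk γ (k * Real.log (p : ℕ) / T)

/-- **the law for a Dirichlet L-function** -/
theorem law_dir (χ : DirichletCharacter ℂ N) (s₀ : ℂ) :
    ∃ (m : ℤ) (r₀ : ℂ), meromorphicOrderAt χ.LFunction s₀ = m ∧
      exp r₀ = meromorphicTrailingCoeffAt χ.LFunction s₀ ∧
      ∀ γ θ : ℝ, Real.pi / 2 < γ → 1 - s₀.re < θ → 0 < θ →
        Law (fun T => ∑ᶠ x ∈ {x : Nat.Primes × ℕ | 1 ≤ x.2 ∧
          ((x.1 : ℕ) : ℝ) ^ x.2 ≤ Real.exp (Real.exp (θ * T))}, dterm χ s₀ γ T x.1 x.2) m r₀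
          (Pool.Agent.W187.UR.Lam γ) := by
  obtain ⟨m, r₀, -, hm, hr, hlaw⟩ := (xd_dir χ).law_at (F := χ.LFunction) s₀
    (fun x _ _ => mero_LFunction χ _)
    (fun s hs => by
      rw [LFunction_eq_LSeries χ (by linarith), ← LSeries_eulerProduct_tprod χ (by linarith)]
      refine tprod_congr fun p => ?_
      simp [qP])
  refine ⟨m, r₀, hm, hr, fun γ θ hγ hθ hθ0 => ?_⟩
  have h1 := hlaw γ θ hγ (by linarith) hθ0
  have h3 : (fun T : ℝ => ∑ᶠ x ∈ {x : Nat.Primes × ℕ | 1 ≤ x.2 ∧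
      qP x.1 ^ x.2 ≤ Real.exp (Real.exp (θ * T))},
        pterm qP (shx s₀ qP fun (p : Nat.Primes) (_ : Fin 1) => χ (p : ℕ)) γ T x.1 x.2) =
      fun T : ℝ => ∑ᶠ x ∈ {x : Nat.Primes × ℕ | 1 ≤ x.2 ∧
        ((x.1 : ℕ) : ℝ) ^ x.2 ≤ Real.exp (Real.exp (θ * T))}, dterm χ s₀ γ T x.1 x.2 := by
    funext T
    refine finsum_mem_congr rfl fun x hx => ?_
    unfold pterm dterm shx Pool.Agent.W187.S2.kk qP
    simp only [Finset.univ_unique, Finset.sum_singleton, mul_pow]
    push_cast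
    ring
  rw [h3] at h1
  exact h1

/-- finiteness of the sets of the pairs -/
theorem finite_pairs (B : ℝ) : {x : Nat.Primes × ℕ | 1 ≤ x.2 ∧
    ((x.1 : ℕ) : ℝ) ^ x.2 ≤ Real.exp B}.Finite := by
  have E : XD (0 : ℝ) qP (fun (_ : Nat.Primes) (_ : Fin 0) => (0 : ℂ)) :=
    { two_le := two_le_qP
      sum := fun σ hσ => sum_qP hσ
      norm_le := fun v j => j.elim0 }
  have h1 := E.finite_fr B
  refine (h1.image fun x => (x.1, x.2 + 1)).subset ?_
  rintro ⟨v, k⟩ ⟨h2, h3⟩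
  refine ⟨(v, k - 1), ?_, by
    simp only [Prod.mk.injEq, true_and]
    have : 1 ≤ k := h2
    omega⟩
  show Pool.Agent.W189.LC.fr qP (v, k - 1) ≤ _
  unfold Pool.Agent.W189.LC.fr
  simp only
  have h4 : ((k - 1 : ℕ) : ℝ) + 1 = k := by
    have : 1 ≤ k := h2
    rw [Nat.cast_sub this]
    push_cast
    ring
  rw [h4, ← Real.log_pow]
  exact (Real.log_le_iff_le_exp (pow_pos (E.q_pos v) k)).2 h3

end Pool.Agent.R409.RH
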