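import Pool.Agent.R409.RG.Mat
import Pool.Agent.R409.RF.Wt
import Pool.Agent.R409.RC.NF

/-!
# The law at an arbitrary point for Euler products of matrices with `A^(N+1) = A`
-/

set_option autoImplicit false

namespace Pool.Agent.R409.RH

open Complex MeasureTheory Filter Topology Set
open Pool.Agent.W189.ML Pool.Agent.W189.LC Pool.Agent.W187.UR Pool.Agent.R409.RC Pool.Agent.R409.RF
open Pool.Agent.R409.RG

/-- the eigenvalues of a matrix with `A^(N+1) = A` have absolute value at most one -/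
lemma norm_eig_le {n : ℕ} (A : Matrix (Fin n) (Fin n) ℂ) {N : ℕ} (hN : N ≠ 0)
    (hA : A ^ (N + 1) = A) (j : Fin n) : ‖eig A j‖ ≤ 1 := by
  set l := eig A j with hl
  have h1 : l ∈ A.charpoly.roots := by
    rw [← eig_spec A, Multiset.mem_map]
    exact ⟨j, Finset.mem_univ_val j, rfl⟩
  have h2 : A.charpoly.IsRoot l := Polynomial.isRoot_of_mem_roots h1
  have h3 : (Matrix.scalar (Fin n) l - A).det = 0 := by
    rw [← Matrix.eval_charpoly]
    exact h2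
  obtain ⟨v, hv, hv0⟩ := Matrix.exists_mulVec_eq_zero_iff.2 h3
  have h4 : A.mulVec v = l • v := by
    rw [Matrix.sub_mulVec, sub_eq_zero] at hv0
    rw [← hv0]
    ext i
    simp [Matrix.mulVec, dotProduct, Matrix.diagonal_apply]
  have h5 : ∀ k : ℕ, (A ^ k).mulVec v = l ^ k • v := by
    intro k
    induction k with
    | zero => simp
    | succ k ih =>
      rw [pow_succ, ← Matrix.mulVec_mulVec, h4, Matrix.mulVec_smul, ih, smul_smul, pow_succ,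
        mul_comm]
  have h6 := h5 (N + 1)
  rw [hA, h4] at h6
  have h7 : l = l ^ (N + 1) := smul_left_injective ℂ hv h6
  by_contra hlt
  push Not at hlt
  have h8 : ‖l‖ = ‖l‖ ^ (N + 1) := by
    rw [← norm_pow, ← h7]
  have h9 : ‖l‖ ^ N = 1 := by
    rw [pow_succ] at h8
    have : ‖l‖ ≠ 0 := by linarith
    field_simp at h8
    linarith
  exact absurd h9 (one_lt_pow₀ hlt hN).ne'

variable {P : Type} {n : ℕ} {q : P → ℝ} {A : P → Matrix (Fin n) (Fin n) ℂ} {F : ℂ → ℂ}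

theorem xd_mat' (h2 : ∀ v, 2 ≤ q v) (hs : ∀ σ : ℝ, 1 < σ → Summable fun v => q v ^ (-σ))
    (hA : ∀ v, ∃ N : ℕ, N ≠ 0 ∧ A v ^ (N + 1) = A v) : XD (0 : ℝ) q (fun v => eig (A v)) where
  two_le := h2
  sum := hs
  norm_le := fun v j => by
    obtain ⟨N, hN, hA⟩ := hA v
    rw [zero_div, Real.rpow_zero]
    exact norm_eig_le (A v) hN hA j

/-- the terms `Tr(A_v^k) q_v^{-k s₀} κ_γ(k log q_v / T) / k` -/
noncomputable def sterm (q : P → ℝ) (A : P → Matrix (Fin n) (Fin n) ℂ) (s₀ : ℂ) (γ T : ℝ) (v : P)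
    (k : ℕ) : ℂ :=
  (A v ^ k).trace * ((q v : ℂ) ^ (-s₀)) ^ k / k * Pool.Agent.W187.S2.kk γ (k * Real.log (q v) / T)

theorem law_at_mat [Countable P] (h2 : ∀ v, 2 ≤ q v)
    (hs : ∀ σ : ℝ, 1 < σ → Summable fun v => q v ^ (-σ))
    (hA : ∀ v, ∃ N : ℕ, N ≠ 0 ∧ A v ^ (N + 1) = A v) (s₀ : ℂ)
    (hmer : ∀ x : ℝ, 0 ≤ x → x ≤ 1 - s₀.re → MeromorphicAt F (s₀ + x))
    (hF : ∀ s : ℂ, 1 < s.re → F s = ∏' v, ((1 - (q v : ℂ) ^ (-s) • A v).det)⁻¹) :
    ∃ (m : ℤ) (r₀ : ℂ), meromorphicOrderAt F s₀ = m ∧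
      exp r₀ = meromorphicTrailingCoeffAt F s₀ ∧
      ∀ γ θ : ℝ, Real.pi / 2 < γ → 1 - s₀.re < θ → 0 < θ →
        Law (fun T => ∑ᶠ x ∈ {x : P × ℕ | 1 ≤ x.2 ∧ q x.1 ^ x.2 ≤ Real.exp (Real.exp (θ * T))},
          sterm q A s₀ γ T x.1 x.2) m r₀ (Lam γ) := by
  have E := xd_mat' h2 hs hA
  obtain ⟨m, r₀, -, hm, hr, hlaw⟩ := E.law_at (F := F) s₀
    (fun x h0 h1 => hmer x h0 (by linarith))
    (fun s hs' => by
      rw [hF s (by linarith)]
      refine tprod_congr fun v => ?_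
      have hq : (q v : ℂ) ≠ 0 := by
        have := h2 v
        exact_mod_cast (by linarith : q v ≠ 0)
      rw [det_eig (A v) (by
        rw [Complex.cpow_def_of_ne_zero hq]
        exact Complex.exp_ne_zero _), ← Finset.prod_inv_distrib])
  refine ⟨m, r₀, hm, hr, fun γ θ hγ hθ hθ0 => ?_⟩
  have h1 := hlaw γ θ hγ (by linarith) hθ0
  have h3 : (fun T : ℝ => ∑ᶠ x ∈ {x : P × ℕ | 1 ≤ x.2 ∧
      q x.1 ^ x.2 ≤ Real.exp (Real.exp (θ * T))}, pterm q (shx s₀ q fun v => eig (A v)) γ T x.1 x.2) =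
      fun T : ℝ => ∑ᶠ x ∈ {x : P × ℕ | 1 ≤ x.2 ∧
        q x.1 ^ x.2 ≤ Real.exp (Real.exp (θ * T))}, sterm q A s₀ γ T x.1 x.2 := by
    funext T
    refine finsum_mem_congr rfl fun x hx => ?_
    have hk : x.2 ≠ 0 := by
      have h4 : 1 ≤ x.2 := hx.1
      omega
    unfold pterm sterm shx Pool.Agent.W187.S2.kk
    rw [trace_pow_eig (A x.1) hk]
    simp only [mul_pow]
    rw [← Finset.sum_mul]
    push_cast
    ring
  rw [h3] at h1
  exact h1

end Pool.Agent.R409.RH
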