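import Pool.Agent.R409.RH.Grp
import Pool.Agent.R409.RH.Mat
import Pool.Agent.R409.RH.Dir

/-!
# The class law at an arbitrary point for the Artin L-functions over `ℚ`
-/

set_option autoImplicit false

namespace Pool.Agent.R409.RH

open NumberField Filter Topology
open Pool.Agent.R409.RC Pool.Agent.R409.RF Pool.Agent.R409.RG

theorem weight_eq {γ u : ℝ} : weight γ u = Pool.Agent.W187.S2.kk γ u := by
  unfold weight Pool.Agent.W187.S2.kk Pool.Agent.W189.ML.om
  have h1 : Complex.Gamma (1 + u) = ((Real.Gamma (1 + u) : ℝ) : ℂ) := by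
    rw [← Complex.Gamma_ofReal]
    push_cast
    rfl
  rw [h1, div_eq_mul_inv]
  push_cast
  congr 2
  ring

theorem lam_eq (γ : ℝ) : lam γ = Pool.Agent.W187.UR.Lam γ := by
  unfold lam Pool.Agent.W187.UR.Lam
  refine MeasureTheory.integral_congr_ae (Filter.Eventually.of_forall fun t => ?_)
  simp only
  rw [weight_eq]
  unfold Pool.Agent.W187.S2.kk Pool.Agent.W189.ML.om
  push_cast
  rfl

/-- the set of the pairs in the sums -/
def PS (θ T : ℝ) : Set (Nat.Primes × ℕ) :=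
  {x | 1 ≤ x.2 ∧ ((x.1 : ℕ) : ℝ) ^ x.2 ≤ Real.exp (Real.exp (θ * T))}

variable {G : Type} [Group G] [Finite G] {frob : Nat.Primes → G} {I : Nat.Primes → Subgroup G}

/-- the character sum in terms of the class sums -/
theorem char_sum [Fintype (ConjClasses G)] (hn : ∀ p, ∀ i ∈ I p, frob p * i * (frob p)⁻¹ ∈ I p)
    {n : ℕ} (ρ : G →* Matrix (Fin n) (Fin n) ℂ) (s₀ : ℂ) (γ θ T : ℝ) :
    (∑ᶠ x ∈ PS θ T, sterm qP (fun p => ρ (frob p) * proj ρ (I p)) s₀ γ T x.1 x.2) =
      ∑ C : ConjClasses G, chi ρ C * classSum frob I C s₀ γ θ T := by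
  classical
  have hfin : (PS θ T).Finite := finite_pairs _
  set Z := hfin.toFinset with hZ
  have hZm : ∀ x, x ∈ Z ↔ x ∈ PS θ T := fun x => Set.Finite.mem_toFinset _
  have hZc : (Z : Set (Nat.Primes × ℕ)) = PS θ T := Set.Finite.coe_toFinset _
  have hcls : ∀ C : ConjClasses G, classSum frob I C s₀ γ θ T =
      ∑ x ∈ Z, part frob I x.1 x.2 C * weight γ (x.2 * Real.log (x.1 : ℕ) / T) *
      (((x.1 : ℕ) : ℂ) ^ (-s₀)) ^ x.2 / x.2 := by
    intro C
    rw [← finsum_mem_coe_finset, hZc]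
    rfl
  have hl : (∑ᶠ x ∈ PS θ T, sterm qP (fun p => ρ (frob p) * proj ρ (I p)) s₀ γ T x.1 x.2) =
      ∑ x ∈ Z, sterm qP (fun p => ρ (frob p) * proj ρ (I p)) s₀ γ T x.1 x.2 := by
    rw [← finsum_mem_coe_finset, hZc]
  rw [hl]
  simp only [hcls, Finset.mul_sum]
  rw [Finset.sum_comm]
  refine Finset.sum_congr rfl fun x hx => ?_
  have hk : x.2 ≠ 0 := by
    have h4 : 1 ≤ x.2 := ((hZm x).1 hx).1
    omega
  unfold sterm
  rw [pow_loc ρ (hn x.1) hk, trace_loc, Finset.sum_mul, Finset.sum_div, Finset.sum_mul]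
  refine Finset.sum_congr rfl fun C _ => ?_
  rw [weight_eq]
  unfold part qP
  push_cast
  ring

/-- the law for a representation -/
theorem law_rep [Fintype (ConjClasses G)] (hn : ∀ p, ∀ i ∈ I p, frob p * i * (frob p)⁻¹ ∈ I p)
    {n : ℕ} {ρ : G →* Matrix (Fin n) (Fin n) ℂ} {F : ℂ → ℂ}
    (hF : IsContinuation frob I ρ F) (s₀ : ℂ) :
    ∃ (m : ℤ) (r₀ : ℂ), meromorphicOrderAt F s₀ = m ∧
      Complex.exp r₀ = meromorphicTrailingCoeffAt F s₀ ∧
      ∀ γ θ : ℝ, Real.pi / 2 < γ → 1 - s₀.re < θ → 0 < θ →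
        Law (fun T => ∑ C : ConjClasses G, chi ρ C * classSum frob I C s₀ γ θ T) m r₀
          (lam γ) := by
  obtain ⟨m, r₀, hm, hr, hlaw⟩ := law_at_mat (P := Nat.Primes)
    (q := qP) (A := fun p => ρ (frob p) * proj ρ (I p)) (F := F) two_le_qP
    (fun σ hσ => sum_qP hσ) (fun p => ⟨Nat.card G, Nat.card_pos.ne', pow_card_succ ρ (hn p)⟩) s₀
    (fun x _ _ => hF.1 _) (fun s hs => by
      rw [hF.2 s hs]
      unfold LFun qP
      refine tprod_congr fun v => ?_
      push_cast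
      rfl)
  refine ⟨m, r₀, hm, hr, fun γ θ hγ hθ hθ0 => ?_⟩
  have h1 := hlaw γ θ hγ hθ hθ0
  have h2 : (fun T : ℝ => ∑ C : ConjClasses G, chi ρ C * classSum frob I C s₀ γ θ T) =
      fun T => ∑ᶠ x ∈ {x : Nat.Primes × ℕ | 1 ≤ x.2 ∧
        qP x.1 ^ x.2 ≤ Real.exp (Real.exp (θ * T))},
        sterm qP (fun p => ρ (frob p) * proj ρ (I p)) s₀ γ T x.1 x.2 := by
    funext T
    exact (char_sum hn ρ s₀ γ θ T).symm
  rw [h2, lam_eq]
  exact h1

variable {ι : Type} [Fintype ι] {d : ι → ℕ} {ρ : ∀ i, G →* Matrix (Fin (d i)) (Fin (d i)) ℂ}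
  {F : ι → ℂ → ℂ}

/-- **the class law at an arbitrary point** -/
theorem class_law [Fintype (ConjClasses G)]
    (hn : ∀ p, ∀ i ∈ I p, frob p * i * (frob p)⁻¹ ∈ I p)
    (hirr : AreIrreducible ρ) (hF : ∀ i, IsContinuation frob I (ρ i) (F i)) (s₀ : ℂ) :
    ∃ c m : ConjClasses G → ℂ,
      (∀ γ θ : ℝ, Real.pi / 2 < γ → 1 - s₀.re < θ → 0 < θ → ∀ C, ∃ B T₀ : ℝ, 0 ≤ B ∧ 1 ≤ T₀ ∧
        ∀ T : ℝ, T₀ ≤ T →
        ‖classSum frob I C s₀ γ θ T - (c C - m C * (Real.log T - lam γ))‖ ≤ B / T) ∧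
      (∀ (k : ℕ) (τ : G →* Matrix (Fin k) (Fin k) ℂ) (f : ℂ → ℂ), IsContinuation frob I τ f →
        (∃ r : ℤ, meromorphicOrderAt f s₀ = r ∧ (r : ℂ) = ∑ C, chi τ C * m C) ∧
        meromorphicTrailingCoeffAt f s₀ = Complex.exp (∑ C, chi τ C * c C)) ∧
      ∃ r : ι → ℤ, (∀ i, meromorphicOrderAt (F i) s₀ = r i) ∧
        ∀ C, m C = (Nat.card C.carrier : ℂ) / Nat.card G *
          ∑ i, (starRingEnd ℂ) (chi (ρ i) C) * r i := by
  classical
  choose r l hr hl hlaw using fun i => law_rep hn (hF i) s₀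
  set a : ConjClasses G → ι → ℂ := fun C i =>
    (Nat.card C.carrier : ℂ) / Nat.card G * (starRingEnd ℂ) (chi (ρ i) C) with ha
  set c : ConjClasses G → ℂ := fun C => ∑ i, a C i * l i with hc
  set m : ConjClasses G → ℂ := fun C => ∑ i, a C i * r i with hm
  -- the class sums in terms of the character sums
  have hcs : ∀ (C : ConjClasses G) (γ θ T : ℝ), classSum frob I C s₀ γ θ T =
      ∑ i, a C i * ∑ D : ConjClasses G, chi (ρ i) D * classSum frob I D s₀ γ θ T := by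
    intro C γ θ T
    simp only [Finset.mul_sum]
    rw [Finset.sum_comm]
    have h1 : ∀ D : ConjClasses G, ∑ i, a C i * (chi (ρ i) D * classSum frob I D s₀ γ θ T) =
        (if C = D then 1 else 0) * classSum frob I D s₀ γ θ T := by
      intro D
      rw [← cols hirr C D, Finset.sum_mul]
      exact Finset.sum_congr rfl fun i _ => by rw [ha]; ring
    simp only [h1]
    simp
  have hasym : ∀ γ θ : ℝ, Real.pi / 2 < γ → 1 - s₀.re < θ → 0 < θ → ∀ C, ∃ B T₀ : ℝ, 0 ≤ B ∧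
      1 ≤ T₀ ∧ ∀ T : ℝ, T₀ ≤ T →
        ‖classSum frob I C s₀ γ θ T - (c C - m C * (Real.log T - lam γ))‖ ≤ B / T := by
    intro γ θ hγ hθ hθ0 C
    choose B T₀ hB hT₀ hT using fun i => hlaw i γ θ hγ hθ hθ0
    refine ⟨∑ i, ‖a C i‖ * B i, 1 + ∑ i, T₀ i, Finset.sum_nonneg fun i _ =>
      mul_nonneg (norm_nonneg _) (hB i), ?_, fun T hTT => ?_⟩
    · have : 0 ≤ ∑ i, T₀ i := Finset.sum_nonneg fun i _ => by linarith [hT₀ i]
      linarith
    have h1 : ∀ i, T₀ i ≤ T := by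
      intro i
      have : T₀ i ≤ ∑ i, T₀ i := Finset.single_le_sum (fun i _ => by linarith [hT₀ i])
        (Finset.mem_univ i)
      linarith
    have h2 : classSum frob I C s₀ γ θ T - (c C - m C * (Real.log T - lam γ)) =
        ∑ i, a C i * ((∑ D : ConjClasses G, chi (ρ i) D * classSum frob I D s₀ γ θ T) -
          (l i - r i * (Real.log T - lam γ))) := by
      rw [hcs C γ θ T, hc, hm]
      simp only [mul_sub, Finset.sum_sub_distrib, Finset.sum_mul]
      congr 2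
      refine congrArg₂ _ ?_ ?_ <;> exact Finset.sum_congr rfl fun i _ => by ring
    rw [h2, Finset.sum_div]
    refine norm_sum_le_of_le _ fun i _ => ?_
    rw [norm_mul, mul_div_assoc]
    exact mul_le_mul_of_nonneg_left (hT i T (h1 i)) (norm_nonneg _)
  refine ⟨c, m, hasym, fun k τ f hf => ?_, r, hr, fun C => ?_⟩
  · obtain ⟨k, k₀, hk, hk0, hklaw⟩ := law_rep hn hf s₀
    set θ₀ : ℝ := max 1 (2 - s₀.re) with hθ₀
    have hθ1 : 0 < θ₀ := lt_of_lt_of_le one_pos (le_max_left _ _)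
    have hθ2 : 1 - s₀.re < θ₀ := lt_of_lt_of_le (by linarith) (le_max_right _ _)
    have hpi : Real.pi / 2 < Real.pi := by linarith [Real.pi_pos]
    have h1 := (hklaw Real.pi θ₀ hpi hθ2 hθ1).tendsto
    have h2 : ∀ C, Tendsto (fun T : ℝ => classSum frob I C s₀ Real.pi θ₀ T -
        (c C - m C * (Real.log T - lam Real.pi))) atTop (𝓝 0) := by
      intro C
      obtain ⟨B, T₀, hB, hT₀, hT⟩ := hasym Real.pi θ₀ hpi hθ2 hθ1 C
      refine squeeze_zero_norm' ?_ (tendsto_const_nhds.div_atTop tendsto_id : Tendsto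
        (fun T : ℝ => B / T) atTop (𝓝 0))
      filter_upwards [eventually_ge_atTop T₀] with T hT' using hT T hT'
    have h3 : Tendsto (fun T : ℝ => ∑ C, chi τ C * (classSum frob I C s₀ Real.pi θ₀ T -
        (c C - m C * (Real.log T - lam Real.pi)))) atTop (𝓝 (∑ C : ConjClasses G, chi τ C * 0)) :=
      tendsto_finsetSum _ fun C _ => (h2 C).const_mul _
    have h4 := h3.sub h1
    simp only [mul_zero, Finset.sum_const_zero, sub_zero] at h4
    have h5 : (fun T : ℝ => (∑ C, chi τ C * (classSum frob I C s₀ Real.pi θ₀ T -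
        (c C - m C * (Real.log T - lam Real.pi)))) -
        ((∑ C : ConjClasses G, chi τ C * classSum frob I C s₀ Real.pi θ₀ T) -
          (k₀ - k * (Real.log T - lam Real.pi)))) =
        fun T : ℝ => (k₀ - ∑ C, chi τ C * c C) - ((k : ℂ) - ∑ C, chi τ C * m C) *
          (Real.log T - lam Real.pi) := by
      funext T
      simp only [mul_sub, Finset.sum_sub_distrib, sub_mul, Finset.sum_mul]
      have e1 : ∀ z : ℂ, ∑ C : ConjClasses G, chi τ C * (m C * z) =
          ∑ C : ConjClasses G, chi τ C * m C * z := fun z =>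
        Finset.sum_congr rfl fun C _ => by ring
      simp only [e1]
      ring
    rw [h5] at h4
    obtain ⟨h6, h7⟩ := Pool.Agent.R409.RG.const_unique h4
    refine ⟨⟨k, hk, by linear_combination h6⟩, ?_⟩
    rw [← hk0]
    congr 1
    linear_combination h7
  · rw [hm, ha]
    simp only [Finset.mul_sum]
    exact Finset.sum_congr rfl fun i _ => by ring

/-- Parseval -/
theorem parseval [Fintype (ConjClasses G)] (hirr : AreIrreducible ρ) {m : ConjClasses G → ℂ}
    {r : ι → ℤ} (hm : ∀ C, m C = (Nat.card C.carrier : ℂ) / Nat.card G *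
      ∑ i, (starRingEnd ℂ) (chi (ρ i) C) * r i) :
    ((∑ i, r i ^ 2 : ℤ) : ℂ) = Nat.card G * ∑ C, m C * (starRingEnd ℂ) (m C) /
      (Nat.card C.carrier : ℂ) := by
  classical
  have hG : (Nat.card G : ℂ) ≠ 0 := by exact_mod_cast Nat.card_pos.ne'
  have h1 : ∀ C, m C * (starRingEnd ℂ) (m C) / (Nat.card C.carrier : ℂ) =
      ∑ j, ∑ i, (Nat.card G : ℂ)⁻¹ ^ 2 * ((r j : ℂ) * r i) * ((Nat.card C.carrier : ℂ) *
        (chi (ρ j) C * (starRingEnd ℂ) (chi (ρ i) C))) := by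
    intro C
    have hC := carrier_pos C
    rw [hm C]
    simp only [map_mul, map_div₀, map_sum, Complex.conj_natCast, Complex.conj_conj, map_intCast]
    have e : (Nat.card C.carrier : ℂ) / Nat.card G *
        (∑ i, (starRingEnd ℂ) (chi (ρ i) C) * r i) *
        ((Nat.card C.carrier : ℂ) / Nat.card G * ∑ i, chi (ρ i) C * r i) /
          (Nat.card C.carrier : ℂ) =
        (Nat.card G : ℂ)⁻¹ ^ 2 * (Nat.card C.carrier : ℂ) *
          ((∑ j, chi (ρ j) C * r j) * ∑ i, (starRingEnd ℂ) (chi (ρ i) C) * r i) := by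
      field_simp
    rw [e, Finset.sum_mul_sum, Finset.mul_sum]
    refine Finset.sum_congr rfl fun j _ => ?_
    rw [Finset.mul_sum]
    exact Finset.sum_congr rfl fun i _ => by ring
  simp only [h1]
  rw [Finset.sum_comm, Finset.mul_sum]
  push_cast
  refine Finset.sum_congr rfl fun j _ => ?_
  rw [Finset.sum_comm]
  simp only [← Finset.mul_sum]
  rw [Finset.sum_eq_single j]
  · rw [rows hirr j j, if_pos rfl]
    field_simp
  · intro i _ hij
    rw [rows hirr j i, if_neg (Ne.symm hij), mul_zero]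
  · intro h
    exact absurd (Finset.mem_univ _) h

end Pool.Agent.R409.RH
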