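import Mathlib

/-!
# Artin L-functions over `ℚ` and sums over the prime powers with a given Frobenius class: definitions
-/

set_option autoImplicit false

namespace Pool.Agent.R409.RH

open NumberField

/-- `frob p` is a Frobenius element at the prime ideal `P p` of `F` above the prime number `p`. -/
def IsFrobenius (F : Type) [Field F] [NumberField F] (P : Nat.Primes → Ideal (𝓞 F))
    (frob : Nat.Primes → (F ≃ₐ[ℚ] F)) : Prop :=
  ∀ p : Nat.Primes, (P p).IsPrime ∧ ((p : ℕ) : 𝓞 F) ∈ P p ∧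
    ∀ x : 𝓞 F, frob p • x - x ^ (p : ℕ) ∈ P p

/-- The inertia groups of the prime ideals `P p`. -/
def inertiaAt (F : Type) [Field F] [NumberField F] (P : Nat.Primes → Ideal (𝓞 F)) (p : Nat.Primes) :
    Subgroup (F ≃ₐ[ℚ] F) := (P p).inertia (F ≃ₐ[ℚ] F)

variable {G : Type} [Group G]

/-- The matrix of the projection onto the vectors fixed by the subgroup `I`. -/
noncomputable def proj {n : ℕ} (ρ : G →* Matrix (Fin n) (Fin n) ℂ) (I : Subgroup G) :
    Matrix (Fin n) (Fin n) ℂ :=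
  (Nat.card I : ℂ)⁻¹ • ∑ᶠ i : I, ρ i

/-- The Artin L-function `L(s, ρ) = ∏_p det(1 - p^{-s} ρ(Frob_p) | V^{I_p})⁻¹`, the product over all
prime numbers. -/
noncomputable def LFun (frob : Nat.Primes → G) (I : Nat.Primes → Subgroup G) {n : ℕ}
    (ρ : G →* Matrix (Fin n) (Fin n) ℂ) (s : ℂ) : ℂ :=
  ∏' p : Nat.Primes, ((1 - ((p : ℕ) : ℂ) ^ (-s) • (ρ (frob p) * proj ρ (I p))).det)⁻¹

/-- `f` is the meromorphic continuation of `L(s, ρ)`. -/
def IsContinuation (frob : Nat.Primes → G) (I : Nat.Primes → Subgroup G) {n : ℕ}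
    (ρ : G →* Matrix (Fin n) (Fin n) ℂ) (f : ℂ → ℂ) : Prop :=
  (∀ z, MeromorphicAt f z) ∧ ∀ s : ℂ, 1 < s.re → f s = LFun frob I ρ s

/-- The value of the character of `ρ` on the conjugacy class `C`. -/
noncomputable def chi {n : ℕ} (ρ : G →* Matrix (Fin n) (Fin n) ℂ) (C : ConjClasses G) : ℂ :=
  (ρ C.out).trace

/-- The `ρ_i` represent the irreducible representations of `G`, each once: their characters are
orthonormal, and there are as many of them as conjugacy classes. -/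
def AreIrreducible {ι : Type} [Fintype ι] {n : ι → ℕ}
    (ρ : ∀ i, G →* Matrix (Fin (n i)) (Fin (n i)) ℂ) : Prop :=
  (∀ i, ∑ᶠ g : G, (ρ i g).trace * (starRingEnd ℂ) (ρ i g).trace = Nat.card G) ∧
  (∀ i j, i ≠ j → ∑ᶠ g : G, (ρ i g).trace * (starRingEnd ℂ) (ρ j g).trace = 0) ∧
  Nat.card ι = Nat.card (ConjClasses G)

/-- The part of the coset `Frob_p^k I_p` in the class `C`. -/
noncomputable def part (frob : Nat.Primes → G) (I : Nat.Primes → Subgroup G) (p : Nat.Primes) (k : ℕ)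
    (C : ConjClasses G) : ℂ :=
  (Nat.card {i : I p // ConjClasses.mk (frob p ^ k * i) = C} : ℂ) / Nat.card (I p)

/-- The weight `κ_γ(u) = e^{iγu} / Γ(1 + u)`. -/
noncomputable def weight (γ u : ℝ) : ℂ :=
  Complex.exp (Complex.I * (γ * u)) / Complex.Gamma (1 + u)

/-- `N_C(T) = ∑ κ_γ(k log p / T) p^{-k s₀} / k`, the sum over the prime powers
`p^k ≤ exp (exp (θ T))` with `Frob_p^k ∈ C`; a ramified `p^k` is counted with the multiplicity
`#(Frob_p^k I_p ∩ C) / #I_p`. -/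
noncomputable def classSum (frob : Nat.Primes → G) (I : Nat.Primes → Subgroup G)
    (C : ConjClasses G) (s₀ : ℂ) (γ θ T : ℝ) : ℂ :=
  ∑ᶠ x ∈ {x : Nat.Primes × ℕ | 1 ≤ x.2 ∧ ((x.1 : ℕ) : ℝ) ^ x.2 ≤ Real.exp (Real.exp (θ * T))},
    part frob I x.1 x.2 C * weight γ (x.2 * Real.log (x.1 : ℕ) / T) *
      (((x.1 : ℕ) : ℂ) ^ (-s₀)) ^ x.2 / x.2

/-- `Λ_γ = ∫_0^∞ (e^{-t} - e^{iγt} / Γ(1 + t)) dt / t`. -/
noncomputable def lam (γ : ℝ) : ℂ :=
  ∫ t in Set.Ioi (0 : ℝ), (Real.exp (-t) - weight γ t) / t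

end Pool.Agent.R409.RH
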