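import Pool.Agent.R409.RH.Defs

/-!
# Linear algebra of the local factors; orthogonality relations
-/

set_option autoImplicit false

namespace Pool.Agent.R409.RH

open NumberField

variable {G : Type} [Group G] [Finite G] {n : ℕ} (ρ : G →* Matrix (Fin n) (Fin n) ℂ)

theorem proj_eq (I : Subgroup G) [Fintype I] :
    proj ρ I = (Nat.card I : ℂ)⁻¹ • ∑ i : I, ρ i := by
  unfold proj
  rw [finsum_eq_sum_of_fintype]

theorem mul_proj (I : Subgroup G) (i : I) : ρ i * proj ρ I = proj ρ I := by
  have := Fintype.ofFinite I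
  rw [proj_eq, Matrix.mul_smul, Finset.mul_sum]
  congr 1
  refine Fintype.sum_equiv (Equiv.mulLeft i) _ _ fun j => ?_
  rw [← map_mul]
  rfl

theorem proj_mul_proj (I : Subgroup G) : proj ρ I * proj ρ I = proj ρ I := by
  have := Fintype.ofFinite I
  have h1 : proj ρ I * proj ρ I = (Nat.card I : ℂ)⁻¹ • ∑ i : I, ρ i * proj ρ I := by
    rw [← Finset.sum_mul, ← Matrix.smul_mul, ← proj_eq]
  rw [h1, Finset.sum_congr rfl fun i _ => mul_proj ρ I i, Finset.sum_const, Finset.card_univ,
    ← Nat.card_eq_fintype_card, ← Nat.cast_smul_eq_nsmul ℂ, smul_smul, inv_mul_cancel₀, one_smul]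
  exact_mod_cast Nat.card_pos.ne'

theorem comm_proj {I : Subgroup G} {f : G} (h : ∀ i ∈ I, f * i * f⁻¹ ∈ I) :
    ρ f * proj ρ I = proj ρ I * ρ f := by
  have := Fintype.ofFinite I
  rw [proj_eq, Matrix.mul_smul, Finset.mul_sum, Matrix.smul_mul, Finset.sum_mul]
  congr 1
  set c : I → I := fun i => ⟨f * i * f⁻¹, h i i.2⟩ with hc
  have hinj : Function.Injective c := by
    intro i j hij
    have h1 : f * (i : G) * f⁻¹ = f * j * f⁻¹ := congrArg Subtype.val hij
    exact Subtype.ext (by simpa using h1)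
  have hbij : Function.Bijective c := Finite.injective_iff_bijective.1 hinj
  rw [← hbij.sum_comp (fun i : I => ρ i * ρ f)]
  refine Finset.sum_congr rfl fun i _ => ?_
  rw [← map_mul, ← map_mul, hc]
  congr 1
  simp

theorem pow_loc {I : Subgroup G} {f : G} (h : ∀ i ∈ I, f * i * f⁻¹ ∈ I) {k : ℕ} (hk : k ≠ 0) :
    (ρ f * proj ρ I) ^ k = ρ (f ^ k) * proj ρ I := by
  obtain ⟨k, rfl⟩ := Nat.exists_eq_succ_of_ne_zero hk
  clear hk
  induction k with
  | zero => simp
  | succ k ih =>
    rw [pow_succ, ih, ← Matrix.mul_assoc, Matrix.mul_assoc (ρ _) (proj ρ I), ← comm_proj ρ h,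
      ← Matrix.mul_assoc, Matrix.mul_assoc, proj_mul_proj, ← map_mul, ← pow_succ]

theorem pow_card_succ {I : Subgroup G} {f : G} (h : ∀ i ∈ I, f * i * f⁻¹ ∈ I) :
    (ρ f * proj ρ I) ^ (Nat.card G + 1) = ρ f * proj ρ I := by
  rw [pow_loc ρ h (Nat.succ_ne_zero _), pow_succ, pow_card_eq_one', one_mul]

theorem chi_mk (g : G) : (ρ g).trace = chi ρ (ConjClasses.mk g) := by
  unfold chi
  have h1 : ConjClasses.mk (ConjClasses.mk g).out = ConjClasses.mk g := Quotient.out_eq _
  obtain ⟨c, hc⟩ := (ConjClasses.mk_eq_mk_iff_isConj.1 h1)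
  have h2 : ρ g = ρ c * ρ (ConjClasses.mk g).out * ρ (c⁻¹ : Gˣ) := by
    rw [← map_mul, ← map_mul]
    congr 1
    have h3 := hc.eq
    rw [h3]
    simp
  rw [h2, Matrix.trace_mul_comm, ← Matrix.mul_assoc, ← map_mul]
  simp

theorem trace_loc [Fintype (ConjClasses G)] (I : Subgroup G) (g : G) :
    (ρ g * proj ρ I).trace = ∑ C : ConjClasses G, chi ρ C *
      ((Nat.card {i : I // ConjClasses.mk (g * i) = C} : ℂ) / Nat.card I) := by
  classical
  have := Fintype.ofFinite I
  rw [proj_eq, Matrix.mul_smul, Matrix.trace_smul, Finset.mul_sum, Matrix.trace_sum, smul_eq_mul]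
  have h1 : ∀ i : I, (ρ g * ρ i).trace =
      ∑ C : ConjClasses G, if ConjClasses.mk (g * i) = C then chi ρ C else 0 := by
    intro i
    rw [← map_mul, chi_mk]
    simp
  simp only [h1]
  rw [Finset.sum_comm, Finset.mul_sum]
  refine Finset.sum_congr rfl fun C _ => ?_
  rw [← Finset.sum_filter, Finset.sum_const, nsmul_eq_mul]
  have h2 : (Finset.univ.filter fun i : I => ConjClasses.mk (g * i) = C).card =
      Nat.card {i : I // ConjClasses.mk (g * i) = C} := by
    rw [Nat.card_eq_fintype_card, Fintype.card_subtype]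
  rw [h2]
  ring

/-! ### sums over a group and over its conjugacy classes -/

theorem sum_classes [Fintype G] [Fintype (ConjClasses G)] (f : ConjClasses G → ℂ) :
    ∑ g : G, f (ConjClasses.mk g) = ∑ C : ConjClasses G, (Nat.card C.carrier : ℂ) * f C := by
  classical
  have h1 : ∀ g : G, f (ConjClasses.mk g) =
      ∑ C : ConjClasses G, if ConjClasses.mk g = C then f C else 0 := by
    intro g
    simp
  simp only [h1]
  rw [Finset.sum_comm]
  refine Finset.sum_congr rfl fun C _ => ?_
  rw [← Finset.sum_filter, Finset.sum_const, nsmul_eq_mul]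
  congr 2
  rw [Nat.card_eq_fintype_card, ← Set.toFinset_card]
  congr 1
  ext g
  simp only [Finset.mem_filter, Finset.mem_univ, true_and, Set.mem_toFinset]
  rw [ConjClasses.mem_carrier_iff_mk_eq]

variable {ι : Type} [Fintype ι] {d : ι → ℕ} {r : ∀ i, G →* Matrix (Fin (d i)) (Fin (d i)) ℂ}

theorem carrier_pos (C : ConjClasses G) : (Nat.card C.carrier : ℂ) ≠ 0 := by
  have h1 : Nonempty C.carrier := by
    obtain ⟨g, rfl⟩ := ConjClasses.exists_rep C
    exact ⟨⟨g, ConjClasses.mem_carrier_mk⟩⟩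
  exact_mod_cast Nat.card_pos.ne'

theorem rows (h : AreIrreducible r) [DecidableEq ι] [Fintype (ConjClasses G)] (i j : ι) :
    ∑ C : ConjClasses G, (Nat.card C.carrier : ℂ) *
      (chi (r i) C * (starRingEnd ℂ) (chi (r j) C)) = if i = j then (Nat.card G : ℂ) else 0 := by
  have := Fintype.ofFinite G
  rw [← sum_classes (fun C => chi (r i) C * (starRingEnd ℂ) (chi (r j) C))]
  simp only [← chi_mk]
  by_cases hij : i = j
  · subst hij
    rw [if_pos rfl, ← h.1 i, finsum_eq_sum_of_fintype]
  · rw [if_neg hij, ← h.2.1 i j hij, finsum_eq_sum_of_fintype]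

theorem cols (h : AreIrreducible r) [DecidableEq (ConjClasses G)] [Fintype (ConjClasses G)]
    (C D : ConjClasses G) :
    ∑ i, ((Nat.card C.carrier : ℂ) / Nat.card G * (starRingEnd ℂ) (chi (r i) C)) * chi (r i) D =
      if C = D then 1 else 0 := by
  classical
  have hG : (Nat.card G : ℂ) ≠ 0 := by exact_mod_cast Nat.card_pos.ne'
  have e : ι ≃ ConjClasses G := by
    have h1 := h.2.2
    rw [Nat.card_eq_fintype_card, Nat.card_eq_fintype_card] at h1
    exact Fintype.equivOfCardEq h1
  set A : Matrix ι (ConjClasses G) ℂ := Matrix.of fun i D => chi (r i) D with hA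
  set B : Matrix (ConjClasses G) ι ℂ := Matrix.of fun C i =>
    (Nat.card C.carrier : ℂ) / Nat.card G * (starRingEnd ℂ) (chi (r i) C) with hB
  have hAB : A * B = 1 := by
    ext i j
    rw [Matrix.mul_apply, Matrix.one_apply]
    have h1 := rows h i j
    have h2 : ∑ C, A i C * B C j = (∑ C : ConjClasses G, (Nat.card C.carrier : ℂ) *
      (chi (r i) C * (starRingEnd ℂ) (chi (r j) C))) / Nat.card G := by
      rw [Finset.sum_div]
      refine Finset.sum_congr rfl fun C _ => ?_
      rw [hA, hB]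
      simp only [Matrix.of_apply]
      ring
    rw [h2, h1]
    split_ifs
    · exact div_self hG
    · exact zero_div _
  have hBA : B * A = 1 := (Matrix.mul_eq_one_comm_of_equiv e).1 hAB
  have h3 := congrFun (congrFun hBA C) D
  rw [Matrix.mul_apply, Matrix.one_apply] at h3
  exact h3

end Pool.Agent.R409.RH
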