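import Pool.Agent.R409.RH.FSDef
import Pool.Agent.R409.RH.Grp

/-!
# The theorem of Frobenius and Schur
-/

set_option autoImplicit false

namespace Pool.Agent.R409.RH

open Matrix Kronecker

/-- the trace of an idempotent matrix is a natural number -/
theorem trace_idem {m : Type} [Fintype m] [DecidableEq m] {E : Matrix m m ℂ} (h : E * E = E) :
    ∃ k : ℕ, E.trace = k := by
  have h1 : IsIdempotentElem (Matrix.toLin' E) := by
    show Matrix.toLin' E ∘ₗ Matrix.toLin' E = Matrix.toLin' E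
    rw [← Matrix.toLin'_mul, h]
  refine ⟨Module.finrank ℂ (LinearMap.range (Matrix.toLin' E)), ?_⟩
  rw [← Matrix.trace_toLin'_eq]
  exact (LinearMap.IsIdempotentElem.isProj_range _ h1).trace

/-- the swap -/
def swp (n : ℕ) : Matrix (Fin n × Fin n) (Fin n × Fin n) ℂ :=
  Matrix.of fun x y => if x.swap = y then 1 else 0

theorem swp_mul {n : ℕ} (B : Matrix (Fin n × Fin n) (Fin n × Fin n) ℂ) (x y : Fin n × Fin n) :
    (swp n * B) x y = B x.swap y := by
  rw [Matrix.mul_apply, Finset.sum_eq_single x.swap]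
  · simp [swp]
  · intro b _ hb
    simp [swp, Ne.symm hb]
  · intro h
    exact absurd (Finset.mem_univ _) h

theorem mul_swp {n : ℕ} (B : Matrix (Fin n × Fin n) (Fin n × Fin n) ℂ) (x y : Fin n × Fin n) :
    (B * swp n) x y = B x y.swap := by
  rw [Matrix.mul_apply, Finset.sum_eq_single y.swap]
  · simp [swp]
  · intro b _ hb
    have h1 : b.swap ≠ y := by
      intro h
      exact hb (by rw [← h, Prod.swap_swap])
    simp [swp, h1]
  · intro h
    exact absurd (Finset.mem_univ _) h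

theorem swp_swp (n : ℕ) : swp n * swp n = 1 := by
  ext x y
  rw [swp_mul]
  simp only [swp, Matrix.of_apply, Prod.swap_swap, Matrix.one_apply]

theorem swp_comm {n : ℕ} (A : Matrix (Fin n) (Fin n) ℂ) :
    swp n * (A ⊗ₖ A) = (A ⊗ₖ A) * swp n := by
  ext x y
  rw [swp_mul, mul_swp, Matrix.kroneckerMap_apply, Matrix.kroneckerMap_apply]
  simp only [Prod.fst_swap, Prod.snd_swap]
  ring

theorem trace_swp {n : ℕ} (A : Matrix (Fin n) (Fin n) ℂ) :
    (swp n * (A ⊗ₖ A)).trace = (A * A).trace := by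
  have h1 : ∀ x : Fin n × Fin n, (swp n * (A ⊗ₖ A)).diag x = A x.2 x.1 * A x.1 x.2 := by
    intro x
    rw [Matrix.diag_apply, swp_mul, Matrix.kroneckerMap_apply, Prod.fst_swap, Prod.snd_swap]
  unfold Matrix.trace
  rw [Finset.sum_congr rfl fun x _ => h1 x, Fintype.sum_prod_type]
  refine Finset.sum_congr rfl fun i _ => ?_
  rw [Matrix.diag_apply, Matrix.mul_apply]
  exact Finset.sum_congr rfl fun j _ => by ring

variable {G : Type} [Group G] [Finite G]

theorem fs_values {n : ℕ} (ρ : G →* Matrix (Fin n) (Fin n) ℂ)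
    (h : ∑ᶠ g : G, (ρ g).trace * (starRingEnd ℂ) (ρ g).trace = Nat.card G) :
    fs ρ = 1 ∨ fs ρ = 0 ∨ fs ρ = -1 := by
  classical
  have := Fintype.ofFinite G
  have hG : (Nat.card G : ℂ) ≠ 0 := by exact_mod_cast Nat.card_pos.ne'
  have hG' : (0 : ℝ) < Nat.card G := by exact_mod_cast Nat.card_pos
  set M : Matrix (Fin n × Fin n) (Fin n × Fin n) ℂ :=
    (Nat.card G : ℂ)⁻¹ • ∑ g : G, ρ g ⊗ₖ ρ g with hM
  have hgM : ∀ g : G, (ρ g ⊗ₖ ρ g) * M = M := by
    intro g
    rw [hM, Matrix.mul_smul, Finset.mul_sum]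
    congr 1
    refine Fintype.sum_equiv (Equiv.mulLeft g) _ _ fun j => ?_
    rw [← Matrix.mul_kronecker_mul, ← map_mul]
    rfl
  have hMM : M * M = M := by
    have h1 : M * M = (Nat.card G : ℂ)⁻¹ • ∑ g : G, (ρ g ⊗ₖ ρ g) * M := by
      rw [← Finset.sum_mul, ← Matrix.smul_mul, ← hM]
    rw [h1, Finset.sum_congr rfl fun g _ => hgM g, Finset.sum_const, Finset.card_univ,
      ← Nat.card_eq_fintype_card, ← Nat.cast_smul_eq_nsmul ℂ, smul_smul, inv_mul_cancel₀ hG,
      one_smul]
  have hSM : swp n * M = M * swp n := by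
    rw [hM, Matrix.mul_smul, Matrix.smul_mul, Finset.mul_sum, Finset.sum_mul]
    congr 1
    exact Finset.sum_congr rfl fun g _ => swp_comm _
  have hSMM : (swp n * M) * M = swp n * M := by rw [Matrix.mul_assoc, hMM]
  have hMSM : M * (swp n * M) = swp n * M := by rw [hSM, ← Matrix.mul_assoc, hMM]
  have hSMSM : (swp n * M) * (swp n * M) = M := by
    rw [Matrix.mul_assoc, hMSM, ← Matrix.mul_assoc, swp_swp, Matrix.one_mul]
  clear_value M
  have hidem : ∀ e : ℂ, e * e = 1 → ((2 : ℂ)⁻¹ • (M + e • (swp n * M))) *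
      ((2 : ℂ)⁻¹ • (M + e • (swp n * M))) = (2 : ℂ)⁻¹ • (M + e • (swp n * M)) := by
    intro e he
    have e1 : (M + e • (swp n * M)) * (M + e • (swp n * M)) =
        M + e • (swp n * M) + (e • (swp n * M) + (e * e) • M) := by
      rw [Matrix.add_mul, Matrix.mul_add, Matrix.mul_add, Matrix.smul_mul, Matrix.smul_mul,
        Matrix.mul_smul, Matrix.mul_smul, hMM, hMSM, hSMM, hSMSM, smul_smul]
    rw [Matrix.smul_mul, Matrix.mul_smul, smul_smul, e1, he, one_smul]
    ext x y
    simp only [Matrix.smul_apply, Matrix.add_apply, smul_eq_mul]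
    ring
  obtain ⟨a, ha⟩ := trace_idem (hidem 1 (by norm_num))
  obtain ⟨b, hb⟩ := trace_idem (hidem (-1) (by norm_num))
  rw [Matrix.trace_smul, Matrix.trace_add, Matrix.trace_smul] at ha hb
  have hfs : (swp n * M).trace = fs ρ := by
    unfold fs
    rw [hM, Matrix.mul_smul, Matrix.trace_smul, Finset.mul_sum, Matrix.trace_sum, smul_eq_mul,
      finsum_eq_sum_of_fintype]
    congr 1
    refine Finset.sum_congr rfl fun g _ => ?_
    rw [trace_swp, map_mul]
  have htr : M.trace = (Nat.card G : ℂ)⁻¹ * ∑ g : G, (ρ g).trace * (ρ g).trace := by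
    rw [hM, Matrix.trace_smul, Matrix.trace_sum, smul_eq_mul]
    congr 1
    refine Finset.sum_congr rfl fun g _ => ?_
    rw [Matrix.trace_kronecker]
  have hle : ‖M.trace‖ ≤ 1 := by
    rw [htr, norm_mul, norm_inv, Complex.norm_natCast]
    have h2 : ‖∑ g : G, (ρ g).trace * (ρ g).trace‖ ≤ Nat.card G := by
      refine (norm_sum_le _ _).trans ?_
      rw [finsum_eq_sum_of_fintype] at h
      have h3 : ((∑ g : G, ‖(ρ g).trace * (ρ g).trace‖ : ℝ) : ℂ) = (Nat.card G : ℝ) := by
        rw [Complex.ofReal_natCast, ← h]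
        push_cast
        refine Finset.sum_congr rfl fun g _ => ?_
        rw [Complex.mul_conj, Complex.normSq_eq_norm_sq, norm_mul]
        push_cast
        ring
      exact (by exact_mod_cast h3 : (∑ g : G, ‖(ρ g).trace * (ρ g).trace‖ : ℝ) =
        (Nat.card G : ℝ)).le
    rw [inv_mul_le_iff₀ hG', mul_one]
    exact h2
  rw [hfs] at ha hb
  simp only [smul_eq_mul] at ha hb
  have h4 : M.trace = ((a + b : ℕ) : ℂ) := by
    push_cast
    linear_combination ha + hb
  have h5 : fs ρ = (a : ℂ) - b := by linear_combination ha - hb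
  rw [h4, Complex.norm_natCast] at hle
  have h6 : a + b ≤ 1 := by exact_mod_cast hle
  have h7 : (a = 0 ∧ b = 0) ∨ (a = 1 ∧ b = 0) ∨ (a = 0 ∧ b = 1) := by omega
  rw [h5]
  rcases h7 with ⟨rfl, rfl⟩ | ⟨rfl, rfl⟩ | ⟨rfl, rfl⟩ <;> norm_num

variable {ι : Type} [Fintype ι] {d : ι → ℕ} {ρ : ∀ i, G →* Matrix (Fin (d i)) (Fin (d i)) ℂ}

/-- the class slopes weighted by the number of square roots -/
theorem roots_sum [Fintype (ConjClasses G)] (hirr : AreIrreducible ρ) {m : ConjClasses G → ℂ}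
    {r : ι → ℤ} (hm : ∀ C, m C = (Nat.card C.carrier : ℂ) / Nat.card G *
      ∑ i, (starRingEnd ℂ) (chi (ρ i) C) * r i) :
    ∑ C, roots C * m C = ∑ i, fs (ρ i) * r i := by
  classical
  have := Fintype.ofFinite G
  have hG : (Nat.card G : ℂ) ≠ 0 := by exact_mod_cast Nat.card_pos.ne'
  have hconj : ∀ i, (starRingEnd ℂ) (fs (ρ i)) = fs (ρ i) := by
    intro i
    rcases fs_values (ρ i) (hirr.1 i) with h | h | h <;> rw [h] <;> simp
  have h1 : ∀ C, roots C * m C = ∑ i, ((r i : ℂ) * (Nat.card G : ℂ)⁻¹) *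
      ((Nat.card {h : G // ConjClasses.mk (h * h) = C} : ℂ) *
        (starRingEnd ℂ) (chi (ρ i) C)) := by
    intro C
    have hC := carrier_pos C
    rw [hm C]
    unfold roots
    rw [← mul_assoc, Finset.mul_sum]
    refine Finset.sum_congr rfl fun i _ => ?_
    field_simp
  simp only [h1]
  rw [Finset.sum_comm]
  refine Finset.sum_congr rfl fun i _ => ?_
  rw [← Finset.mul_sum]
  have h2 : ∑ C : ConjClasses G, ((Nat.card {h : G // ConjClasses.mk (h * h) = C} : ℂ) *
      (starRingEnd ℂ) (chi (ρ i) C)) = (starRingEnd ℂ) (∑ g : G, (ρ i (g * g)).trace) := by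
    rw [map_sum]
    simp only [chi_mk]
    have h3 : ∀ g : G, (starRingEnd ℂ) (chi (ρ i) (ConjClasses.mk (g * g))) =
        ∑ C : ConjClasses G, if ConjClasses.mk (g * g) = C then (starRingEnd ℂ) (chi (ρ i) C)
          else 0 := by
      intro g
      simp
    simp only [h3]
    rw [Finset.sum_comm]
    refine Finset.sum_congr rfl fun C _ => ?_
    rw [← Finset.sum_filter, Finset.sum_const, nsmul_eq_mul]
    congr 2
    rw [Nat.card_eq_fintype_card, Fintype.card_subtype]
  rw [h2, ← hconj i]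
  unfold fs
  rw [finsum_eq_sum_of_fintype, map_mul, map_inv₀, Complex.conj_natCast]
  ring

end Pool.Agent.R409.RH
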