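import Pool.Agent.R409.RH.Defs

/-!
# The Frobenius–Schur indicator: definition
-/

set_option autoImplicit false

namespace Pool.Agent.R409.RH

variable {G : Type} [Group G]

/-- The Frobenius–Schur indicator `ν(χ) = 1/#G ∑_g χ(g²)` of the character `χ` of `ρ`. -/
noncomputable def fs {n : ℕ} (ρ : G →* Matrix (Fin n) (Fin n) ℂ) : ℂ :=
  (Nat.card G : ℂ)⁻¹ * ∑ᶠ g : G, (ρ (g * g)).trace

/-- The number of square roots of an element of the conjugacy class `C`. -/
noncomputable def roots (C : ConjClasses G) : ℂ :=
  (Nat.card {h : G // ConjClasses.mk (h * h) = C} : ℂ) / Nat.card C.carrier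

/-- The order of a meromorphic function at a point (`0` if it vanishes identically near the point). -/
noncomputable def ordAt (f : ℂ → ℂ) (s : ℂ) : ℤ := (meromorphicOrderAt f s).untop₀

end Pool.Agent.R409.RH
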